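import Mathlib

set_option autoImplicit false
open Finset

namespace Pool.Agent.Results.MP_64ebd5_nt.B2NotPrimitive

/-- the `l`-th prime, `pr 1 = 2`, `pr 2 = 3`, ... -/
noncomputable def pr (l : ℕ) : ℕ := Nat.nth Nat.Prime (l - 1)

/-- `f k`: the least index `j ≥ k` with `σ(p_k ⋯ p_j) ≥ 2 p_k ⋯ p_j` -/
noncomputable def f (k : ℕ) : ℕ :=
  sInf {j : ℕ | k ≤ j ∧ 2 * (∏ l ∈ Finset.Icc k j, pr l) ≤ ∑ d ∈ (∏ l ∈ Finset.Icc k j, pr l).divisors, d}

/-- `A_k = ∏_{k ≤ l ≤ f(k)} p_l` -/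
noncomputable def A (k : ℕ) : ℕ := ∏ l ∈ Finset.Icc k (f k), pr l

/-- `B_k = (A_k / p_{f(k)}) p_{f(k)+1} p_{f(k)+2}` -/
noncomputable def B (k : ℕ) : ℕ := A k / pr (f k) * pr (f k + 1) * pr (f k + 2)

/-- `n` is pseudoperfect: `n > 0` is the sum of a set of distinct divisors `d < n` of `n` -/
def PseudoPerf (n : ℕ) : Prop := 0 < n ∧ ∃ s : Finset ℕ, (∀ d ∈ s, d ∣ n ∧ d < n) ∧ ∑ d ∈ s, d = n

/-- `n` is primitive pseudoperfect: pseudoperfect and no proper divisor is pseudoperfect -/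
def PrimPseudoPerf (n : ℕ) : Prop := PseudoPerf n ∧ ∀ d : ℕ, d ∣ n → d < n → ¬ PseudoPerf d

lemma pr_of {l p : ℕ} (hp : p.Prime) (hc : Nat.count Nat.Prime p = l - 1) : pr l = p := by
  unfold pr
  rw [← hc]
  exact Nat.nth_count hp

lemma pr2 : pr 2 = 3 := pr_of (by norm_num) (by decide)
lemma pr3 : pr 3 = 5 := pr_of (by norm_num) (by decide)
lemma pr4 : pr 4 = 7 := pr_of (by norm_num) (by decide)
lemma pr5 : pr 5 = 11 := pr_of (by norm_num) (by decide)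
lemma pr6 : pr 6 = 13 := pr_of (by norm_num) (by decide)
lemma pr7 : pr 7 = 17 := pr_of (by norm_num) (by decide)
lemma pr8 : pr 8 = 19 := pr_of (by norm_num) (by decide)

lemma sig_mul_prime {m p : ℕ} (hp : p.Prime) (h : m.Coprime p) :
    ∑ d ∈ (m * p).divisors, d = (∑ d ∈ m.divisors, d) * (p + 1) := by
  rw [h.sum_divisors_mul, Nat.Prime.sum_divisors hp, add_comm]

lemma sig3 : ∑ d ∈ (3:ℕ).divisors, d = 4 := by decide
lemma sig15 : ∑ d ∈ (3 * 5:ℕ).divisors, d = 24 := by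
  rw [sig_mul_prime (by norm_num) (by norm_num), sig3]
lemma sig105 : ∑ d ∈ (3 * 5 * 7:ℕ).divisors, d = 192 := by
  rw [sig_mul_prime (by norm_num) (by norm_num), sig15]
lemma sig1155 : ∑ d ∈ (3 * 5 * 7 * 11:ℕ).divisors, d = 2304 := by
  rw [sig_mul_prime (by norm_num) (by norm_num), sig105]
lemma sig15015 : ∑ d ∈ (3 * 5 * 7 * 11 * 13:ℕ).divisors, d = 32256 := by
  rw [sig_mul_prime (by norm_num) (by norm_num), sig1155]

lemma prod2 : ∏ l ∈ Finset.Icc 2 2, pr l = 3 := by simp [pr2]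
lemma prod3 : ∏ l ∈ Finset.Icc 2 3, pr l = 3 * 5 := by
  rw [Finset.prod_Icc_succ_top (by norm_num), prod2, pr3]
lemma prod4 : ∏ l ∈ Finset.Icc 2 4, pr l = 3 * 5 * 7 := by
  rw [Finset.prod_Icc_succ_top (by norm_num), prod3, pr4]
lemma prod5 : ∏ l ∈ Finset.Icc 2 5, pr l = 3 * 5 * 7 * 11 := by
  rw [Finset.prod_Icc_succ_top (by norm_num), prod4, pr5]
lemma prod6 : ∏ l ∈ Finset.Icc 2 6, pr l = 3 * 5 * 7 * 11 * 13 := by
  rw [Finset.prod_Icc_succ_top (by norm_num), prod5, pr6]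

lemma f2 : f 2 = 6 := by
  unfold f
  have hmem : (6:ℕ) ∈ {j : ℕ | 2 ≤ j ∧ 2 * (∏ l ∈ Finset.Icc 2 j, pr l) ≤
      ∑ d ∈ (∏ l ∈ Finset.Icc 2 j, pr l).divisors, d} := by
    refine ⟨by norm_num, ?_⟩
    rw [prod6, sig15015]
    norm_num
  apply le_antisymm (Nat.sInf_le hmem)
  by_contra hcon
  push Not at hcon
  have h := Nat.sInf_mem ⟨6, hmem⟩
  set j := sInf {j : ℕ | 2 ≤ j ∧ 2 * (∏ l ∈ Finset.Icc 2 j, pr l) ≤
      ∑ d ∈ (∏ l ∈ Finset.Icc 2 j, pr l).divisors, d} with hj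
  obtain ⟨h1, h2⟩ := h
  interval_cases j
  · rw [prod2, sig3] at h2; omega
  · rw [prod3, sig15] at h2; omega
  · rw [prod4, sig105] at h2; omega
  · rw [prod5, sig1155] at h2; omega

lemma A2 : A 2 = 15015 := by
  unfold A; rw [f2, prod6]

lemma B2 : B 2 = 373065 := by
  unfold B; rw [A2, f2, pr6, pr7, pr8]

lemma pseudo19635 : PseudoPerf 19635 := by
  refine ⟨by norm_num, {6545, 3927, 2805, 1785, 1309, 1155, 935, 595, 561, 17, 1}, ?_, by decide⟩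
  intro d hd
  simp only [Finset.mem_insert, Finset.mem_singleton] at hd
  rcases hd with rfl | rfl | rfl | rfl | rfl | rfl | rfl | rfl | rfl | rfl | rfl <;>
    exact ⟨by norm_num, by norm_num⟩

/-- The assertion `A_k` and `B_k` are primitive pseudoperfect for every `k ≥ 2` fails at `k = 2`:
`B_2 = 373065` is divisible by the pseudoperfect number `19635`. -/
theorem result : ¬ ∀ k : ℕ, 2 ≤ k → PrimPseudoPerf (A k) ∧ PrimPseudoPerf (B k) := by
  intro h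
  obtain ⟨_, h2⟩ := h 2 le_rfl
  rw [B2] at h2
  exact h2.2 19635 (by norm_num) (by norm_num) pseudo19635

end Pool.Agent.Results.MP_64ebd5_nt.B2NotPrimitive
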